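import Pool.Agent.MP_c69980_ag.H43.Spec2

/-!
Equations over the field of constants hold along the flow of the vector fields.
-/

set_option autoImplicit false

namespace Pool.Agent.MP_c69980_ag.H43

open MvPolynomial H60 Finset Filter Topology

variable {t a M : ℕ}

lemma flow_chain {ι : Type} [Fintype ι] {y : ℂ → ι → ℂ} {y' : ι → ℂ} {z : ℂ}
    (h : ∀ x, HasDerivAt (fun z => y z x) (y' x) z) (P : MvPolynomial ι ℂ) :
    HasDerivAt (fun z => eval (y z) P) (∑ x, eval (y z) (pderiv x P) * y' x) z := by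
  classical
  induction P using MvPolynomial.induction_on with
  | C c => simpa using hasDerivAt_const z c
  | add p q hp hq => simpa only [map_add, add_mul, sum_add_distrib] using hp.fun_add hq
  | mul_X p i hp =>
    simp only [map_mul, eval_X]
    refine (hp.fun_mul (h i)).congr_deriv (Eq.symm ?_)
    simp only [map_mul, eval_X, Derivation.leibniz, smul_eq_mul, pderiv_X, map_add,
      add_mul, sum_add_distrib, sum_mul, Pi.single_apply]
    rw [add_comm]
    congr 1
    · exact sum_congr rfl fun _ _ => by ring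
    · simp [apply_ite, ite_mul]

/-- The vector field as an operator on polynomials. -/
noncomputable def flowT (P : Fin (t + a) → CI M t → CP M t) (v : Pt t a) : CP M t →ₗ[ℂ] CP M t :=
  ∑ x, (LinearMap.mulRight ℂ (∑ i, C (v i) * P i x)).comp (pderiv x).toLinearMap

lemma flowT_apply (P : Fin (t + a) → CI M t → CP M t) (v : Pt t a) (Q : CP M t) :
    flowT P v Q = ∑ x, pderiv x Q * ∑ i, C (v i) * P i x := by
  simp [flowT, LinearMap.sum_apply]

lemma flowT_eval (P : Fin (t + a) → CI M t → CP M t) (v : Pt t a) (Q : CP M t) (y : CI M t → ℂ) :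
    eval y (flowT P v Q) = ∑ x, eval y (pderiv x Q) * vf P v y x := by
  simp [flowT_apply, vf_eq]

lemma flowT_sum {m : ℕ} (P : Fin (t + a) → CI M t → CP M t) (c : Fin m → ℂ) (μ : Fin m → Pt t a)
    (Q : CP M t) : flowT P (∑ l, c l • μ l) Q = ∑ l, c l • flowT P (μ l) Q := by
  simp only [flowT_apply, Finset.sum_apply, Pi.smul_apply, smul_eq_mul, map_sum, map_mul, sum_mul,
    mul_sum, smul_eq_C_mul]
  rw [sum_comm (γ := Fin m)]
  refine sum_congr rfl fun x _ => ?_
  rw [sum_comm]
  exact sum_congr rfl fun _ _ => sum_congr rfl fun _ _ => by ring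

lemma flow_core {w : Fin M → Option (Fin t)} {Θ : Pt t a → Fin M → ℂ} {PP : PT M t a}
    {F : Subfield ℂ} {p : Pt t a} {m : ℕ} {μ : Fin m → Pt t a} {δ : Fin m → Der}
    (g : GA1 w Θ) (der : DerF w Θ PP) (cf : ∀ β i x, Cf F (PP β i x)) (hμ : ∀ l i, μ l i ∈ F)
    (hδ : ∀ l, Kill F (δ l) ∧ Tan Θ (δ l) p (μ l)) {H : PR M} {e : ℕ} (hH : H.IsHomogeneous e)
    (hF : Cf F H) (h0 : eval (Θ p) H = 0) {q : Pt t a}
    (hq : q - p ∈ Submodule.span ℂ (Set.range μ)) : eval (Θ q) H = 0 := by
  obtain ⟨c, hc⟩ := (Submodule.mem_span_range_iff_exists_fun ℂ).1 hq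
  obtain ⟨β, hβ⟩ := exists_ch (g.blk p)
  set v := q - p with hv
  let γ : ℂ → Pt t a := fun z => p + z • v
  have dγ : ∀ z, HasDerivAt γ v z := fun z => by
    have := ((hasDerivAt_id z).smul_const v).const_add p
    rwa [one_smul] at this
  have d : ∀ c, Differentiable ℂ fun q => Θ q c := differentiable_pi.1 g.hol
  have dc : ∀ c, Differentiable ℂ fun z => Θ (γ z) c := fun c z =>
    (d c _).comp z (dγ z).differentiableAt
  let U : Set ℂ := {z | Ch w β (Θ (γ z))}
  have hU : IsOpen U := by
    have : U = ⋂ o, {z | Θ (γ z) (β o) ≠ 0} := by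
      ext z
      simp only [U, Ch, Set.mem_ofPred_eq, Set.mem_iInter]
      exact forall_congr' fun o => and_iff_right (hβ o).1
    rw [this]
    exact isOpen_iInter_of_finite fun o => isOpen_ne_fun (dc _).continuous continuous_const
  have γ0 : γ 0 = p := by simp [γ]
  have U0 : (0 : ℂ) ∈ U := by
    show Ch w β (Θ (γ 0))
    rwa [γ0]
  let h : CP M t → ℂ → ℂ := fun P z => eval (co β (Θ (γ z))) P
  have dh1 : ∀ P, ∀ z ∈ U, HasDerivAt (h P) (h (flowT (PP β) v P) z) z := fun P z hz => by
    simp only [h, flowT_eval]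
    refine flow_chain (fun x => ?_) P
    rw [← der β _ v x hz]
    have : DifferentiableAt ℂ (fun q => co β (Θ q) x) (γ z) := by
      simp only [co, div_eq_mul_inv]
      exact (d x.1 _).mul ((d _ _).inv (hz x.2).2)
    exact this.hasFDerivAt.comp_hasDerivAt z (dγ z)
  have it : ∀ n P, ∀ z ∈ U, iteratedDeriv n (h P) z = h ((flowT (PP β) v)^[n] P) z := by
    intro n P
    induction n with
    | zero => exact fun _ _ => rfl
    | succ n ih =>
      intro z hz
      rw [iteratedDeriv_succ, Function.iterate_succ_apply', ← (dh1 _ z hz).deriv]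
      exact EventuallyEq.deriv_eq (mem_of_superset (hU.mem_nhds hz) ih)
  let W := Submodule.span ℂ {P : CP M t | Cf F P ∧ eval (co β (Θ p)) P = 0}
  have w0 : ∀ P ∈ W, eval (co β (Θ p)) P = 0 := fun P hP => by
    induction hP using Submodule.span_induction with
    | mem P h => exact h.2
    | zero => exact map_zero _
    | add P Q _ _ h1 h2 => rw [map_add, h1, h2, add_zero]
    | smul c P _ h1 => rw [smul_eval, h1, mul_zero]
  have w1 : W ≤ W.comap (flowT (PP β) v) := Submodule.span_le.2 fun P hP => by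
    show flowT (PP β) v P ∈ W
    rw [← hc, flowT_sum]
    refine Submodule.sum_mem _ fun l _ => Submodule.smul_mem _ _ (Submodule.subset_span ⟨?_, ?_⟩)
    · rw [flowT_apply]
      exact Cf.sum _ fun x _ => (hP.1.pderiv x).mul
        (Cf.sum _ fun i _ => (cf_C (hμ l i)).mul (cf β i x))
    · have := hP.1.chain (hδ l).1 (co β (Θ p))
      rw [hP.2, map_zero] at this
      rw [flowT_eval, this]
      exact sum_congr rfl fun x _ => by rw [(tan_iff g.hol der hβ).1 (hδ l).2]
  have w2 : ∀ n, (flowT (PP β) v)^[n] (dh H) ∈ W := fun n => by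
    induction n with
    | zero =>
      refine Submodule.subset_span ⟨hF.rename _, ?_⟩
      have : eval _ (dh H) = eval (Θ p) H / _ := eval_dh (y := Θ p) hH β
      exact this.trans (by rw [h0, zero_div])
    | succ n ih =>
      rw [Function.iterate_succ_apply']
      exact w1 ih
  have an : AnalyticAt ℂ (h (dh H)) 0 := DifferentiableOn.analyticAt
    (fun z hz => (dh1 _ z hz).differentiableAt.differentiableWithinAt) (hU.mem_nhds U0)
  have z0 := analyticOrderAt_eq_top.1 (ENat.eq_top_iff_forall_ge.2 fun n =>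
    (natCast_le_analyticOrderAt_iff_iteratedDeriv_eq_zero an).2 fun i _ => by
      rw [it i _ 0 U0]
      simp only [h, γ0]
      exact w0 _ (w2 i))
  have en : Differentiable ℂ fun z => eval (Θ (γ z)) H := fun z =>
    (flow_chain (fun x => (dc x z).hasDerivAt) H).differentiableAt
  have z1 : (fun z => eval (Θ (γ z)) H) =ᶠ[𝓝 0] 0 := by
    filter_upwards [z0, hU.mem_nhds U0] with z h1 h2
    have : eval _ (dh H) = eval (Θ (γ z)) H / _ := eval_dh (y := Θ (γ z)) hH β
    exact (div_eq_zero_iff.1 (this.symm.trans h1)).resolve_right (pow_ne_zero _ (h2 none).2)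
  have := congrFun (AnalyticOnNhd.eq_of_eventuallyEq (fun z _ => en.analyticAt z)
    analyticOnNhd_const z1) 1
  have e1 : γ 1 = q := by simp [γ, hv]
  rwa [e1] at this

theorem sFlow (h : SHom) : SFlow := by
  intro t a M w Θ PP F p m n μ δ g der cf hμ hδ hI c b
  by_cases hb : ∀ i, Θ p (b i) ≠ 0
  · have : ¬ AlgebraicIndependent F fun i => Θ p (c i) / Θ p (b i) :=
      fun h => hI ⟨_, fun i => ⟨_, _, rfl⟩, h⟩
    rw [algebraicIndependent_iff] at this
    push Not at this
    obtain ⟨P, h1, h2⟩ := this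
    refine ⟨map F.subtype P, fun e => h2 (map_injective _ F.subtype.injective
      (e.trans (map_zero _).symm)), fun q hq hq' => ?_⟩
    obtain ⟨H, h3, h4, h5⟩ := h M _ c b (map F.subtype P) _ le_rfl
    have h6 : ∀ y : Fin M → ℂ, (∀ i, y (b i) ≠ 0) → eval y H = (∏ i, y (b i)) ^ _ *
        eval (fun i => y (c i) / y (b i)) (map F.subtype P) := h5 ℂ
    have h7 := flow_core g der cf hμ hδ h3 (h4 F (cf_map P))
      (by rw [h6 _ hb, eval_map_sub, h1, mul_zero]) hq
    rw [h6 _ hq'] at h7
    exact (mul_eq_zero.1 h7).resolve_left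
      (pow_ne_zero _ (prod_ne_zero_iff.2 fun i _ => hq' i))
  · push Not at hb
    obtain ⟨i, hi⟩ := hb
    refine ⟨1, one_ne_zero, fun q hq hq' => absurd ?_ (hq' i)⟩
    simpa using flow_core g der cf hμ hδ (isHomogeneous_X ℂ (b i)) (cf_X _) (by simpa) hq

end Pool.Agent.MP_c69980_ag.H43
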